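import Pool.Agent.H16.CX.Basic

/-!
# The coding of the points of `FE` by structures
-/

set_option autoImplicit false

open Set Topology Filter MeasureTheory

namespace Pool.Agent.H16.CX

open Pool.Agent.H72.UV

/-- `i ↦ 2 l_i` for `i < |l|` and `i ↦ 2 i + 1` for `i ≥ |l|` -/
def blf (l : List ℕ) (i : ℕ) : ℕ := if h : i < l.length then 2 * l[i] else 2 * i + 1

lemma blf_injective {l : List ℕ} (hl : l.Nodup) : Function.Injective (blf l) := by
  intro i j hij
  unfold blf at hij
  split_ifs at hij with h1 h2 h2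
  · have h3 : l[i] = l[j] := by omega
    exact (hl.getElem_inj_iff).1 h3
  · omega
  · omega
  · omega

/-- the injection `blf l` for a list `l` without repetitions -/
def bl (l : List ℕ) (hl : l.Nodup) : ℕ ↪ ℕ := ⟨blf l, blf_injective hl⟩

open scoped Classical in
/-- the structure of a point -/
noncomputable def cz {X : Type} [MetricSpace X] (R : RS X) (x0 z : X) : Str ℕ X := fun l =>
  if hl : l.Nodup then R.res (bl l hl) z else x0

/-- the set of the structures of the points of `FE` -/
def YY {X : Type} [MetricSpace X] (R : RS X) (x0 : X) : Set (Str ℕ X) :=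
  {c | ∃ z ∈ FE R, c = cz R x0 z}

/-- (COR) relabelling -/
def T_COR : Prop :=
  ∀ (X : Type) [MetricSpace X] (R : RS X) (x0 z : X), z ∈ FE R → ∀ g h : Equiv.Perm ℕ,
    (∀ i, g (2 * i) = 2 * h i) → R.res (pe g) z ∈ FE R ∧
      ∀ l : List ℕ, cz R x0 z (l.map h) = cz R x0 (R.res (pe g) z) l

/-- (COM) the set `YY` is a countable intersection of finitely supported Borel sets -/
def T_COM : Prop :=
  ∀ (X : Type) [MetricSpace X] [CompactSpace X] [MeasurableSpace X] [BorelSpace X] (R : RS X)
    (x0 : X), ∃ A : ℕ → Set (Str ℕ X), (∀ n, MeasurableSet (A n) ∧ FinDep (A n)) ∧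
      YY R x0 = ⋂ n, A n

/-- (COB) the point is a Borel function of its structure -/
def T_COB : Prop :=
  ∀ (X : Type) [MetricSpace X] [CompactSpace X] [MeasurableSpace X] [BorelSpace X] (R : RS X)
    (x0 : X), ∃ ρ : Str ℕ X → X, Measurable ρ ∧ ∀ z ∈ FE R, ρ (cz R x0 z) = z

end Pool.Agent.H16.CX
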