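import Pool.Agent.H16.CX.Basic

/-!
# Targets, part 2: locally uniform actions on complete spaces
-/

set_option autoImplicit false

open Set Topology Filter MeasureTheory

namespace Pool.Agent.H16.CX

attribute [local instance] Pool.Agent.H71.permTop

/-- (UNC) the restriction monoid of an action on a complete space which is uniformly continuous at
the identity -/
def T_UNC : Prop :=
  ∀ (X : Type) [MetricSpace X] [CompleteSpace X] [MulAction (Equiv.Perm ℕ) X],
    (∀ g : Equiv.Perm ℕ, Continuous fun x : X => g • x) →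
    (∀ ε > (0 : ℝ), ∃ n : ℕ, ∀ g ∈ VS n, ∀ x : X, dist (g • x) x ≤ ε) →
    ∃ R : RS X, ∀ (g : Equiv.Perm ℕ) (x : X), R.res (pe g) x = g⁻¹ • x

/-- (SEP) thinning out a sequence of tuples with separated values -/
def T_SEP : Prop :=
  ∀ (X : Type) [MetricSpace X] (n : ℕ) (F : (Fin n → ℕ) → X) (a : ℕ → Fin n → ℕ) (δ : ℝ),
    0 < δ → (∀ i j, i ≠ j → δ ≤ dist (F (a i)) (F (a j))) →
    ∃ φ : ℕ → ℕ, StrictMono φ ∧ ∀ (s : ℕ) (c : Fin n → ℕ),
      (∀ j, ∃ t, t ≠ s ∧ ∃ k, c j = a (φ t) k) → δ / 4 ≤ dist (F c) (F (a (φ s)))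

/-- (TBD) orbits which are not totally bounded give perfectly many orbits -/
def T_TBD : Prop :=
  ∀ (X : Type) [MetricSpace X] [CompleteSpace X] [MeasurableSpace X] [BorelSpace X] (R : RS X)
    (x : X), ¬ TotallyBounded {y | Eqv R x y} → PM R

/-- the action is tame at `x`: for some `k` the closure of the local orbit of `x` is complete, and
the permutations that fix many numbers move the points of the local orbit only a little -/
def TameAt (X : Type) [MetricSpace X] [MulAction (Equiv.Perm ℕ) X] (x : X) : Prop :=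
  ∃ k : ℕ, IsComplete (closure {y : X | ∃ g ∈ VS k, g • x = y}) ∧
    ∀ ε > (0 : ℝ), ∃ n : ℕ, ∀ g ∈ VS n, ∀ h ∈ VS k, dist (g • h • x) (h • x) ≤ ε

/-- (TAM) the dichotomy for tame actions -/
def T_TAM : Prop :=
  ∀ (X : Type) [MetricSpace X] [SecondCountableTopology X] [MeasurableSpace X] [BorelSpace X]
    [StandardBorelSpace X] [MulAction (Equiv.Perm ℕ) X],
    Continuous (fun p : Equiv.Perm ℕ × X => p.1 • p.2) → (∀ x : X, TameAt X x) →
    (∃ D : Set X, D.Countable ∧ ∀ x : X, ∃ g : Equiv.Perm ℕ, g • x ∈ D) ∨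
      ∃ f : (ℕ → Bool) → X, Measurable f ∧ ∀ s t, s ≠ t → ∀ g : Equiv.Perm ℕ, g • f s ≠ f t

/-- (TMC) relatively compact local orbits are tame -/
def T_TMC : Prop :=
  ∀ (X : Type) [MetricSpace X] [MulAction (Equiv.Perm ℕ) X],
    Continuous (fun p : Equiv.Perm ℕ × X => p.1 • p.2) → ∀ x : X,
    (∃ n : ℕ, IsCompact (closure {y | ∃ g ∈ VS n, g • x = y})) → TameAt X x

end Pool.Agent.H16.CX
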