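import Pool.Agent.H16.CX.Fin
import Pool.Agent.H16.CX.Targets2
import Pool.Agent.H16.CX.Code
import Pool.Agent.H16.CXS.TWI
import Pool.Agent.H72.UV.Final
import Pool.Agent.H97.UV.RAM
import Pool.Agent.H1.CXS.BAI
import Pool.Agent.H1.CXS.CCA
import Pool.Agent.H11.CX.CCT
import Pool.Agent.H11.CX.ZED
import Pool.Agent.H11.CX.TMC
import Pool.Agent.H3.CX.SHF
import Pool.Agent.H3.CX.UNI
import Pool.Agent.H3.CX.UNC
import Pool.Agent.H3.CX.SEP
import Pool.Agent.H33.CX.COM
import Pool.Agent.H34.CXS.FXK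
import Pool.Agent.H48.CXS.COD
import Pool.Agent.H48.CXS.IND
import Pool.Agent.H50.CX.SUR
import Pool.Agent.H50.CX.TAM
import Pool.Agent.H58.CXS.COB
import Pool.Agent.H58.CXS.CPA
import Pool.Agent.H58.CXS.LOC
import Pool.Agent.H65.CXS.FIX
import Pool.Agent.H65.CXS.ORD
import Pool.Agent.H67.CX.TBD
import Pool.Agent.H68.CXS.COR
import Pool.Agent.H71.CXS.CLS
import Pool.Agent.H81.CXS.SWP
import Pool.Agent.H84.CXS.TWG
import Pool.Agent.H86.CXS.CPT

/-!
# Assembly: tame continuous actions of the infinite symmetric group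
-/

set_option autoImplicit false

open Set Topology Filter MeasureTheory

namespace Pool.Agent.H16.CX

theorem fix : T_FIX :=
  H65.CXS.pf_fix H48.CXS.pf_ind H11.CX.pf_zed H81.CXS.pf_swp H16.CXS.pf_twi H84.CXS.pf_twg
    H65.CXS.pf_ord

theorem fxk : T_FXK := H34.CXS.pf_fxk H3.CX.pf_shf H11.CX.pf_cct fix

theorem cod : T_COD := H48.CXS.pf_cod H68.CXS.pf_cor H33.CX.pf_com H58.CXS.pf_cob

/-- the dichotomy for compact spaces -/
theorem cpt : T_CPT :=
  H86.CXS.pf_cpt fxk H50.CX.pf_sur cod H71.CXS.pf_cls H11.CX.pf_cct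
    Pool.Agent.H72.UV.sigmaStmt

theorem cpa : T_CPA := H58.CXS.pf_cpa H3.CX.pf_uni cpt

/-- the dichotomy for actions with relatively compact local orbits -/
theorem loc : T_LOC := H58.CXS.pf_loc H1.CXS.pf_cca cpa

theorem bai : T_BAI := H1.CXS.pf_bai

theorem tbd : T_TBD := H67.CX.pf_tbd (H3.CX.pf_sep H97.UV.ram)

/-- the dichotomy for tame actions -/
theorem tam : T_TAM := H50.CX.pf_tam H3.CX.pf_unc tbd H1.CXS.pf_cca loc

end Pool.Agent.H16.CX
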