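import Pool.Agent.H16.CX.Targets

/-!
# Basic lemmas
-/

set_option autoImplicit false

open Set Topology Filter MeasureTheory

namespace Pool.Agent.H16.CX

attribute [local instance] Pool.Agent.H71.permTop

/-- a finite part of an injection extends to a permutation -/
lemma exists_perm (b : ℕ ↪ ℕ) (n : ℕ) : ∃ g : Equiv.Perm ℕ, ∀ i < n, g i = b i := by
  classical
  -- a bound
  obtain ⟨M, hM⟩ : ∃ M : ℕ, n ≤ M ∧ ∀ i < n, b i < M := by
    refine ⟨n + (Finset.range n).sup (fun i => b i) + 1, by omega, fun i hi => ?_⟩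
    have := Finset.le_sup (f := fun i => b i) (Finset.mem_range.2 hi)
    omega
  let e : {x : Fin M // x.1 < n} ≃ {y : Fin M // ∃ i < n, b i = y.1} :=
    Equiv.ofBijective (fun x => ⟨⟨b x.1.1, hM.2 _ x.2⟩, x.1.1, x.2, rfl⟩) (by
      constructor
      · rintro ⟨x, hx⟩ ⟨y, hy⟩ hxy
        have h1 : b x.1 = b y.1 := by
          have := congrArg (fun z => z.1.1) hxy
          exact this
        have h2 := b.injective h1
        exact Subtype.ext (Fin.ext h2)
      · rintro ⟨y, i, hi, hy⟩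
        exact ⟨⟨⟨i, by omega⟩, hi⟩, Subtype.ext (Fin.ext hy)⟩)
  let e' : Equiv.Perm (Fin M) := e.extendSubtype
  have he' : ∀ (x : Fin M) (hx : x.1 < n), (e' x).1 = b x.1 := by
    intro x hx
    have := Equiv.extendSubtype_apply_of_mem e x hx
    rw [show e' x = e.extendSubtype x from rfl, this]
    rfl
  refine ⟨e'.extendDomain (Fin.equivSubtype (n := M)), fun i hi => ?_⟩
  have h1 : i < M := by omega
  have h2 := Equiv.Perm.extendDomain_apply_subtype e' (Fin.equivSubtype (n := M)) (b := i) h1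
  rw [h2]
  have h3 : (Fin.equivSubtype (n := M)).symm ⟨i, h1⟩ = ⟨i, h1⟩ := rfl
  rw [h3]
  exact he' ⟨i, h1⟩ hi

section
variable {X : Type} [MetricSpace X]

lemma res_mul (R : RS X) (g h : Equiv.Perm ℕ) (x : X) :
    R.res (pe (g * h)) x = R.res (pe h) (R.res (pe g) x) := by
  rw [← R.comp]
  congr 1

lemma res_one (R : RS X) (x : X) : R.res (pe 1) x = x := by
  conv_rhs => rw [← R.one x]
  congr 1

lemma res_inv_res (R : RS X) (g : Equiv.Perm ℕ) (x : X) :
    R.res (pe g⁻¹) (R.res (pe g) x) = x := by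
  rw [← res_mul, mul_inv_cancel, res_one]

lemma res_res_inv (R : RS X) (g : Equiv.Perm ℕ) (x : X) :
    R.res (pe g) (R.res (pe g⁻¹) x) = x := by
  rw [← res_mul, inv_mul_cancel, res_one]

lemma eqv_refl (R : RS X) (x : X) : Eqv R x x := ⟨1, res_one R x⟩

lemma eqv_symm (R : RS X) {x y : X} (h : Eqv R x y) : Eqv R y x := by
  obtain ⟨g, rfl⟩ := h
  exact ⟨g⁻¹, res_inv_res R g x⟩

lemma eqv_trans (R : RS X) {x y z : X} (h : Eqv R x y) (h' : Eqv R y z) : Eqv R x z := by
  obtain ⟨g, rfl⟩ := h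
  obtain ⟨g', rfl⟩ := h'
  exact ⟨g * g', res_mul R g g' x⟩

/-- restrictions along a sequence of injections that converges to `b` -/
lemma tendsto_res (R : RS X) (c : ℕ → (ℕ ↪ ℕ)) (b : ℕ ↪ ℕ) (x : ℕ → X) (y : X)
    (hc : ∀ i, ∀ᶠ n in atTop, c n i = b i) (hx : Tendsto x atTop (𝓝 y)) :
    Tendsto (fun n => R.res (c n) (x n)) atTop (𝓝 (R.res b y)) := by
  have h1 : Tendsto (fun n => R.res b (x n)) atTop (𝓝 (R.res b y)) :=
    ((R.cont b).tendsto y).comp hx
  refine tendsto_iff_dist_tendsto_zero.2 ?_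
  have h2 := tendsto_iff_dist_tendsto_zero.1 h1
  rw [Metric.tendsto_atTop] at h2 ⊢
  intro ε hε
  obtain ⟨N1, hN1⟩ := h2 (ε / 2) (by positivity)
  obtain ⟨m, hm⟩ := R.unif (ε / 4) (by positivity)
  have h3 : ∀ᶠ n in atTop, ∀ i < m, c n i = b i := by
    have := (Set.finite_lt_nat m).eventually_all (l := atTop)
      (p := fun i n => c n i = b i)
    exact this.2 fun i _ => hc i
  obtain ⟨N2, hN2⟩ := eventually_atTop.1 h3
  refine ⟨max N1 N2, fun n hn => ?_⟩
  have h4 := hN1 n (le_trans (le_max_left _ _) hn)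
  have h5 := hm (c n) b (hN2 n (le_trans (le_max_right _ _) hn)) (x n)
  rw [Real.dist_eq, sub_zero, abs_of_nonneg dist_nonneg] at h4 ⊢
  calc dist (R.res (c n) (x n)) (R.res b y)
      ≤ dist (R.res (c n) (x n)) (R.res b (x n)) + dist (R.res b (x n)) (R.res b y) :=
        dist_triangle _ _ _
    _ < ε := by linarith

/-- two points that are limits of restrictions along the same finite parts are equal -/
lemma res_eq_of_agree (R : RS X) (b c : ℕ → (ℕ ↪ ℕ)) (x y z : X)
    (h : ∀ n, ∀ i < n, b n i = c n i) (h1 : ∀ n, R.res (b n) x = y)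
    (h2 : ∀ n, R.res (c n) x = z) : y = z := by
  refine eq_of_dist_eq_zero (le_antisymm (le_of_forall_pos_le_add fun ε hε => ?_) dist_nonneg)
  obtain ⟨n, hn⟩ := R.unif ε hε
  have := hn (b n) (c n) (h n) x
  rw [h1, h2] at this
  linarith

/-- continuity of the action of the permutations -/
lemma continuous_act (R : RS X) :
    Continuous fun p : Equiv.Perm ℕ × X => R.res (pe p.1) p.2 := by
  rw [continuous_iff_continuousAt]
  rintro ⟨g, x⟩
  rw [ContinuousAt, Metric.tendsto_nhds]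
  intro ε hε
  obtain ⟨m, hm⟩ := R.unif (ε / 4) (by positivity)
  have h1 : ∀ᶠ p : Equiv.Perm ℕ × X in 𝓝 (g, x), ∀ i < m, p.1 i = g i := by
    have := (Set.finite_lt_nat m).eventually_all (l := 𝓝 (g, x))
      (p := fun i (p : Equiv.Perm ℕ × X) => p.1 i = g i)
    refine this.2 fun i _ => ?_
    have h2 : IsOpen {h : Equiv.Perm ℕ | h i = g i} := Pool.Agent.H71.isOpen_apply_eq i (g i)
    exact (h2.preimage continuous_fst).mem_nhds (by simp)
  have h3 : ∀ᶠ p : Equiv.Perm ℕ × X in 𝓝 (g, x), dist (R.res (pe g) p.2) (R.res (pe g) x) < ε / 2 := by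
    have h4 : Continuous fun p : Equiv.Perm ℕ × X => R.res (pe g) p.2 :=
      (R.cont _).comp continuous_snd
    exact Metric.tendsto_nhds.1 (h4.tendsto (g, x)) (ε / 2) (by positivity)
  filter_upwards [h1, h3] with p h5 h6
  have h7 := hm (pe p.1) (pe g) h5 p.2
  calc dist (R.res (pe p.1) p.2) (R.res (pe g) x)
      ≤ dist (R.res (pe p.1) p.2) (R.res (pe g) p.2) + dist (R.res (pe g) p.2) (R.res (pe g) x) :=
        dist_triangle _ _ _
    _ < ε := by linarith

end

end Pool.Agent.H16.CX
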