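import Pool.Agent.H71.CC
import Pool.Agent.H71.PermTop
import Pool.Agent.H72.UV.Sigma

/-!
# Continuous actions of the symmetric group with relatively compact local orbits: definitions
-/

set_option autoImplicit false

open Set Topology Filter MeasureTheory

namespace Pool.Agent.H16.CX

attribute [local instance] Pool.Agent.H71.permTop

/-- A continuous action of the monoid of the injections of `ℕ` by restriction
(`res (b ∘ c) x = res c (res b x)`), uniformly continuous with respect to the injection. -/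
structure RS (X : Type) [MetricSpace X] where
  res : (ℕ ↪ ℕ) → X → X
  cont : ∀ b, Continuous (res b)
  one : ∀ x, res (Function.Embedding.refl ℕ) x = x
  comp : ∀ (b c : ℕ ↪ ℕ) (x : X), res (c.trans b) x = res c (res b x)
  unif : ∀ ε > (0 : ℝ), ∃ n : ℕ, ∀ b c : ℕ ↪ ℕ, (∀ i < n, b i = c i) →
    ∀ x, dist (res b x) (res c x) ≤ ε

/-- the injection given by a permutation -/
abbrev pe (g : Equiv.Perm ℕ) : ℕ ↪ ℕ := g.toEmbedding

section
variable {X : Type} [MetricSpace X]

/-- `x` and `y` lie in the same orbit of the symmetric group -/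
def Eqv (R : RS X) (x y : X) : Prop := ∃ g : Equiv.Perm ℕ, R.res (pe g) x = y

/-- perfectly many orbits -/
def PM [MeasurableSpace X] (R : RS X) : Prop :=
  ∃ f : (ℕ → Bool) → X, Measurable f ∧ ∀ s t, s ≠ t → ¬ Eqv R (f s) (f t)

/-- `Z` is invariant under the injections that fix `0, ..., k - 1` -/
def InvK (R : RS X) (k : ℕ) (Z : Set X) : Prop :=
  ∀ b : ℕ ↪ ℕ, (∀ i < k, b i = i) → ∀ x ∈ Z, R.res b x ∈ Z

/-- the points fixed by the permutations that fix all even numbers -/
def FE (R : RS X) : Set X :=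
  {z | ∀ g : Equiv.Perm ℕ, (∀ i, g (2 * i) = 2 * i) → R.res (pe g) z = z}

/-- equivalence under the permutations that map the even numbers onto the even numbers -/
def EvEq (R : RS X) (x y : X) : Prop :=
  ∃ g h : Equiv.Perm ℕ, (∀ i, g (2 * i) = 2 * h i) ∧ R.res (pe g) x = y

/-- `a` and `b` are twins for `x`: deleting `b` or deleting `a` gives the same point -/
def Tw (R : RS X) (x : X) (a b : ℕ) : Prop :=
  ∀ c : ℕ ↪ ℕ, (∀ j, c j ≠ b) → R.res c x = R.res (c.trans (pe (Equiv.swap a b))) x

end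

/-- strict linear orders of `ℕ` -/
def Ord (L : ℕ → ℕ → Prop) : Prop :=
  (∀ a, ¬ L a a) ∧ (∀ a b c, L a b → L b c → L a c) ∧ ∀ a b, a ≠ b → L a b ∨ L b a

/-- nothing lies between `a` and `b` -/
def Adj (L : ℕ → ℕ → Prop) (a b : ℕ) : Prop := ¬ ∃ d, (L a d ∧ L d b) ∨ (L b d ∧ L d a)

/-- an equivariant continuous map from the space of the linear orders -/
structure ZZ {X : Type} [MetricSpace X] (R : RS X) (w : X) (z : (ℕ → ℕ → Prop) → X) : Prop where
  base : z (fun a b => a < b) = w
  res : ∀ L, Ord L → ∀ c : ℕ ↪ ℕ, R.res c (z L) = z (fun a b => L (c a) (c b))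
  unif : ∀ ε > (0 : ℝ), ∃ n : ℕ, ∀ L L', Ord L → Ord L' →
    (∀ i < n, ∀ j < n, (L i j ↔ L' i j)) → dist (z L) (z L') ≤ ε

/-- the subgroup of the permutations that fix `0, ..., n - 1` -/
def VS (n : ℕ) : Set (Equiv.Perm ℕ) := {g | ∀ i < n, g i = i}

end Pool.Agent.H16.CX
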