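import Pool.Agent.H16.CX.Targets

/-!
# The final statement from the targets `LOC` and `BAI`
-/

set_option autoImplicit false

open Set Topology Filter MeasureTheory

namespace Pool.Agent.H16.CX

attribute [local instance] Pool.Agent.H71.permTop

lemma standardBorelSpace_of_equiv {X Y : Type*} [mX : MeasurableSpace X] [MeasurableSpace Y]
    [StandardBorelSpace Y] (e : X ≃ᵐ Y) : StandardBorelSpace X := by
  obtain ⟨τ, hτ, hτ'⟩ := (inferInstance : StandardBorelSpace Y).polish
  let τX : TopologicalSpace X := TopologicalSpace.induced e τ
  have he : IsClosedEmbedding e := by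
    refine ⟨⟨⟨rfl⟩, e.injective⟩, ?_⟩
    rw [show range (e : X → Y) = univ from e.surjective.range_eq]
    exact isClosed_univ
  refine ⟨τX, ?_, he.polishSpace⟩
  constructor
  have h1 : mX = MeasurableSpace.comap e (borel Y) := by
    rw [← hτ.measurable_eq]
    exact (e.measurableEmbedding.comap_eq).symm
  rw [h1, borel_comap]

lemma standardBorelSpace_of_sigmaCompact (X : Type*) [TopologicalSpace X]
    [TopologicalSpace.MetrizableSpace X] [SigmaCompactSpace X] [MeasurableSpace X]
    [BorelSpace X] : StandardBorelSpace X := by
  let _ := TopologicalSpace.metrizableSpaceMetric X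
  let Y := UniformSpace.Completion X
  let _ : MeasurableSpace Y := borel Y
  have : BorelSpace Y := ⟨rfl⟩
  have hs : TopologicalSpace.SeparableSpace Y :=
    (UniformSpace.Completion.isDenseInducing_coe (α := X)).dense.separableSpace
      (UniformSpace.Completion.continuous_coe X)
  have h2 : SecondCountableTopology Y := UniformSpace.secondCountable_of_separable Y
  have : PolishSpace Y := inferInstance
  have hemb : IsEmbedding ((↑) : X → Y) :=
    (UniformSpace.Completion.isUniformEmbedding_coe X).isEmbedding
  have hr : MeasurableSet (range ((↑) : X → Y)) := by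
    rw [← image_univ, ← iUnion_compactCovering, image_iUnion]
    exact MeasurableSet.iUnion fun n =>
      ((isCompact_compactCovering X n).image
        (UniformSpace.Completion.continuous_coe X)).isClosed.measurableSet
  have h3 : StandardBorelSpace (range ((↑) : X → Y)) := hr.standardBorel
  exact standardBorelSpace_of_equiv (hemb.measurableEmbedding hr).equivRange

/-- the dichotomy for sigma-compact spaces and for spaces with relatively compact local orbits -/
theorem final (hL : T_LOC) (hB : T_BAI) (X : Type) [TopologicalSpace X]
    [TopologicalSpace.MetrizableSpace X] [SecondCountableTopology X] [MeasurableSpace X]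
    [BorelSpace X] [MulAction (Equiv.Perm ℕ) X]
    (hc : Continuous (fun p : Equiv.Perm ℕ × X => p.1 • p.2))
    (h : SigmaCompactSpace X ∨ (StandardBorelSpace X ∧
      ∀ x : X, ∃ n : ℕ, IsCompact (closure {y | ∃ g ∈ VS n, g • x = y}))) :
    (∃ D : Set X, D.Countable ∧ ∀ x : X, ∃ g : Equiv.Perm ℕ, g • x ∈ D) ∨
      ∃ f : (ℕ → Bool) → X, Measurable f ∧ ∀ s t, s ≠ t → ∀ g : Equiv.Perm ℕ, g • f s ≠ f t := by
  rcases h with h | ⟨h, h'⟩
  · have := standardBorelSpace_of_sigmaCompact X
    exact hL X hc (hB X hc)
  · exact hL X hc h'

end Pool.Agent.H16.CX
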