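import Pool.Agent.H16.CX.All

/-!
# The local dichotomy: only countably many orbits contain tame points

The proofs are those of `Pool.Agent.H58.CXS.pf_loc` and `Pool.Agent.H50.CX.pf_tam`, in a local form.
-/

set_option autoImplicit false

open Set Topology Filter MeasureTheory

namespace Pool.Agent.H16.CX

attribute [local instance] Pool.Agent.H71.permTop

open Pool.Agent.H58.CXS Pool.Agent.H50.CX

/-- local orbits -/
def LO {X : Type} [MulAction (Equiv.Perm ℕ) X] (k : ℕ) (x : X) : Set X :=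
  {y | ∃ g ∈ VS k, g • x = y}

/-- tame points: for some `k` the closure of the local orbit has a complete metric in which the
permutations that fix many numbers move the points only a little -/
def Tame {X : Type} [TopologicalSpace X] [MulAction (Equiv.Perm ℕ) X] (x : X) : Prop :=
  ∃ k : ℕ, ∃ m : MetricSpace (closure (LO k x)),
    m.toPseudoMetricSpace.toUniformSpace.toTopologicalSpace = instTopologicalSpaceSubtype ∧
    @CompleteSpace _ m.toPseudoMetricSpace.toUniformSpace ∧
    ∀ ε > (0 : ℝ), ∃ n : ℕ, ∀ g ∈ VS n, ∀ y z : closure (LO k x), g • (y : X) = z →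
      m.dist z y ≤ ε

/-- relatively compact local orbits -/
theorem loc_local (X : Type) [TopologicalSpace X] [TopologicalSpace.MetrizableSpace X]
    [SecondCountableTopology X] [MeasurableSpace X] [BorelSpace X] [StandardBorelSpace X]
    [MulAction (Equiv.Perm ℕ) X]
    (hact : Continuous (fun p : Equiv.Perm ℕ × X => p.1 • p.2))
    (hP : ¬ ∃ f : (ℕ → Bool) → X, Measurable f ∧ ∀ s t, s ≠ t →
      ∀ g : Equiv.Perm ℕ, g • f s ≠ f t) :
    ∃ D : Set X, D.Countable ∧ ∀ x : X, (∃ n : ℕ, IsCompact (closure (LO n x))) →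
      ∃ g : Equiv.Perm ℕ, g • x ∈ D := by
  classical
  have hCCA := Pool.Agent.H1.CXS.pf_cca
  have hno : ∀ n, ¬ ∃ f : (ℕ → Bool) → X, Measurable f ∧ ∀ s t, s ≠ t → ∀ g ∈ VS n,
      g • f s ≠ f t := by
    rintro n ⟨f, hf, hf'⟩
    exact hP (hCCA X hact n f hf hf')
  have hgc : ∀ g : Equiv.Perm ℕ, Continuous fun x : X => g • x := fun g =>
    hact.comp (continuous_const.prodMk continuous_id)
  -- a countable basis
  obtain ⟨b, hb, -, hbas⟩ := TopologicalSpace.exists_countable_basis X
  obtain ⟨U, hU⟩ := (hb.insert (Set.univ : Set X)).exists_eq_range (Set.insert_nonempty _ _)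
  have hUo : ∀ j, IsOpen (U j) := by
    intro j
    have h1 : U j ∈ insert (Set.univ : Set X) b := hU ▸ ⟨j, rfl⟩
    rcases h1 with h1 | h1
    · rw [h1]
      exact isOpen_univ
    · exact hbas.isOpen h1
  have hUb : ∀ (x : X) (V : Set X), IsOpen V → x ∈ V → ∃ j, x ∈ U j ∧ U j ⊆ V := by
    intro x V hV hx
    obtain ⟨v, hv, hxv, hvV⟩ := hbas.exists_subset_of_mem_open hx hV
    have h1 : v ∈ Set.range U := hU ▸ Set.mem_insert_of_mem _ hv
    obtain ⟨j, rfl⟩ := h1
    exact ⟨j, hxv, hvV⟩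
  let Φ : ℕ → X → ℕ → Bool := fun n x j => decide (∃ g ∈ VS n, g • x ∈ U j)
  have hΦ : ∀ n x j, Φ n x j = true ↔ ∃ g ∈ VS n, g • x ∈ U j := fun n x j => by
    simp [Φ]
  have hΦm : ∀ n, Measurable (Φ n) := by
    intro n
    refine measurable_pi_iff.2 fun j => measurable_to_bool ?_
    have h1 : (fun x => Φ n x j) ⁻¹' {true} = ⋃ g ∈ VS n, (fun x : X => g • x) ⁻¹' U j := by
      ext x
      simp only [Set.mem_preimage, Set.mem_singleton_iff, hΦ, Set.mem_iUnion, exists_prop]
    rw [h1]
    exact (isOpen_biUnion fun g _ => (hUo j).preimage (hgc g)).measurableSet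
  have hC : ∀ n x y, y ∈ closure (LO n x) ↔ ∀ j, y ∈ U j → Φ n x j = true := by
    intro n x y
    rw [mem_closure_iff]
    constructor
    · intro h j hj
      obtain ⟨z, hz, g, hg, rfl⟩ := h (U j) (hUo j) hj
      exact (hΦ n x j).2 ⟨g, hg, hz⟩
    · intro h V hV hy
      obtain ⟨j, hj, hjV⟩ := hUb y V hV hy
      obtain ⟨g, hg, hgx⟩ := (hΦ n x j).1 (h j hj)
      exact ⟨g • x, hjV hgx, g, hg, rfl⟩
  have hCeq : ∀ n x x', Φ n x = Φ n x' → closure (LO n x) = closure (LO n x') := by
    intro n x x' h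
    ext y
    rw [hC, hC, h]
  have hinv : ∀ n (g : Equiv.Perm ℕ) x, g ∈ VS n → Φ n (g • x) = Φ n x := by
    intro n g x hg
    funext j
    rw [Bool.eq_iff_iff, hΦ, hΦ]
    constructor
    · rintro ⟨k, hk, hkx⟩
      exact ⟨k * g, vs_mul hk hg, by rwa [mul_smul]⟩
    · rintro ⟨k, hk, hkx⟩
      refine ⟨k * g⁻¹, vs_mul hk (vs_inv hg), ?_⟩
      rwa [mul_smul, inv_smul_smul]
  have hcount : ∀ n, (Set.range (Φ n)).Countable := by
    intro n
    by_contra hcon
    obtain ⟨f, hf, hf'⟩ := Pool.Agent.H59.TV.exists_perfect_of_smooth (Φ n) (hΦm n) hcon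
    refine hno n ⟨f, hf, fun s t hst g hg hE => hf' s t hst ?_⟩
    rw [← hE, hinv n g (f s) hg]
  have hsel : ∀ (n : ℕ) (v : ℕ → Bool), ∃ D : Set X, D.Countable ∧
      ∀ x, Φ n x = v → IsCompact (closure (LO n x)) →
        ∀ y ∈ closure (LO n x), ∃ g ∈ VS n, g • y ∈ D := by
    intro n v
    by_cases h : ∃ x, Φ n x = v ∧ IsCompact (closure (LO n x))
    · obtain ⟨x, hx, hK⟩ := h
      have hKinv : ∀ g ∈ VS n, ∀ y ∈ closure (LO n x), g • y ∈ closure (LO n x) := by
        intro g hg y hy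
        refine map_mem_closure (hgc g) hy ?_
        rintro _ ⟨k, hk, rfl⟩
        exact ⟨g * k, vs_mul hg hk, mul_smul _ _ _⟩
      rcases cpa X hact n _ hK hKinv with ⟨D, hD, hD'⟩ | h1
      · refine ⟨D, hD, fun x' hx' _ y hy => hD' y ?_⟩
        rw [hCeq n x x' (hx.trans hx'.symm)]
        exact hy
      · exact absurd h1 (hno n)
    · push Not at h
      exact ⟨∅, Set.countable_empty, fun x hx hK => absurd hK (h x hx)⟩
  choose D hD hD' using hsel
  refine ⟨⋃ n, ⋃ v ∈ Set.range (Φ n), D n v,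
    Set.countable_iUnion fun n => (hcount n).biUnion fun v _ => hD n v, fun x hx => ?_⟩
  obtain ⟨n, hn⟩ := hx
  obtain ⟨g, -, hg⟩ := hD' n (Φ n x) x rfl hn x (subset_closure ⟨1, vs_one n, one_smul _ _⟩)
  refine ⟨g, ?_⟩
  simp only [Set.mem_iUnion]
  exact ⟨n, Φ n x, ⟨x, rfl⟩, hg⟩

/-- the closure of the local orbit is compact at tame points; `Y` is the closure with the complete
metric -/
theorem compact_of_tame_aux (X : Type) [TopologicalSpace X] [TopologicalSpace.MetrizableSpace X]
    [SecondCountableTopology X] [MeasurableSpace X] [BorelSpace X]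
    [MulAction (Equiv.Perm ℕ) X]
    (hact : Continuous (fun p : Equiv.Perm ℕ × X => p.1 • p.2))
    (hP : ¬ ∃ f : (ℕ → Bool) → X, Measurable f ∧ ∀ s t, s ≠ t →
      ∀ g : Equiv.Perm ℕ, g • f s ≠ f t) (x : X) (k : ℕ) (Y : Type) [MetricSpace Y]
    [CompleteSpace Y] (v : Y → X) (hvt : IsEmbedding v) (hr : range v = closure (LO k x))
    (hunif : ∀ ε > (0 : ℝ), ∃ n : ℕ, ∀ g ∈ VS n, ∀ y z : Y, g • v y = v z → dist z y ≤ ε) :
    IsCompact (closure (LO k x)) := by
  have hcg : ∀ g : Equiv.Perm ℕ, Continuous fun y : X => g • y := fun g =>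
    hact.comp (continuous_const.prodMk continuous_id)
  have hinv : ∀ g ∈ VS k, ∀ y ∈ closure (LO k x), g • y ∈ closure (LO k x) := by
    intro g hg y hy
    refine map_mem_closure (hcg g) hy ?_
    rintro s ⟨h, hh, rfl⟩
    refine ⟨g * h, fun i hi => ?_, mul_smul g h x⟩
    rw [Equiv.Perm.mul_apply, hh i hi, hg i hi]
  have hxS : x ∈ closure (LO k x) := subset_closure ⟨1, fun _ _ => rfl, one_smul _ x⟩
  have hvy : ∀ y, v y ∈ closure (LO k x) := fun y => hr ▸ mem_range_self y
  have hex : ∀ (g : Equiv.Perm ℕ) (y : Y), ∃ z : Y, v z = shf k g • v y := fun g y => by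
    have h1 := hinv _ (shf_mem k g) _ (hvy y)
    rw [← hr] at h1
    exact h1
  choose act hact' using hex
  let bY : MeasurableSpace Y := borel Y
  have : BorelSpace Y := ⟨rfl⟩
  let aY : MulAction (Equiv.Perm ℕ) Y :=
    { smul := act
      one_smul := fun y => by
        refine hvt.injective ?_
        show v (act 1 y) = v y
        rw [hact', shf_one, one_smul]
      mul_smul := fun g h y => by
        refine hvt.injective ?_
        show v (act (g * h) y) = v (act g (act h y))
        rw [hact', hact', hact', shf_mul, mul_smul] }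
  have hsm : ∀ (g : Equiv.Perm ℕ) (y : Y), v (g • y) = shf k g • v y := fun g y => hact' g y
  obtain ⟨R, hR⟩ := H3.CX.pf_unc Y
    (fun g => by
      rw [hvt.continuous_iff]
      have h1 : (v ∘ fun y : Y => g • y) = (fun y : X => shf k g • y) ∘ v := by
        funext y
        exact hsm g y
      rw [h1]
      exact (hcg (shf k g)).comp hvt.continuous)
    (by
      intro ε hε
      obtain ⟨n, hn⟩ := hunif ε hε
      exact ⟨n, fun g hg y => hn (shf k g) (shf_mem' k n hg) y (g • y) (hsm g y).symm⟩)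
  obtain ⟨x₀, hx₀⟩ : ∃ x₀, v x₀ = x := by
    rw [← hr] at hxS
    exact hxS
  by_cases hTB : TotallyBounded {y : Y | Eqv R x₀ y}
  · have h1 : {y : Y | Eqv R x₀ y} = v ⁻¹' LO k x := by
      ext y
      constructor
      · rintro ⟨g, hg⟩
        refine ⟨shf k g⁻¹, shf_mem k _, ?_⟩
        rw [← hg, hR, hsm, hx₀]
      · rintro ⟨g, hg, hgy⟩
        obtain ⟨g', rfl⟩ := exists_shf hg
        refine ⟨g'⁻¹, ?_⟩
        rw [hR, inv_inv]
        refine hvt.injective ?_
        rw [hsm, hx₀, hgy]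
    have h2 : closure {y : Y | Eqv R x₀ y} = univ := by
      rw [h1, hvt.closure_eq_preimage_closure_image]
      refine eq_univ_of_forall fun y => ?_
      change v y ∈ closure (v '' (v ⁻¹' LO k x))
      rw [image_preimage_eq_of_subset]
      · exact hvy y
      · intro z hz
        rw [hr]
        exact subset_closure hz
    have h3 : IsCompact (univ : Set Y) := by
      rw [← h2]
      exact isCompact_iff_totallyBounded_isComplete.2 ⟨hTB.closure, isClosed_closure.isComplete⟩
    have h4 := h3.image hvt.continuous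
    rwa [image_univ, hr] at h4
  · exfalso
    obtain ⟨f, hf, hf'⟩ := tbd Y R x₀ hTB
    have hvm : Measurable v := hvt.continuous.measurable
    obtain ⟨f', h1, h2⟩ := Pool.Agent.H1.CXS.pf_cca X hact k (fun s => v (f s)) (hvm.comp hf) (by
      intro s t hst g hg h
      obtain ⟨g', rfl⟩ := exists_shf hg
      refine hf' s t hst ⟨g'⁻¹, ?_⟩
      rw [hR, inv_inv]
      refine hvt.injective ?_
      rw [hsm, h])
    exact hP ⟨f', h1, h2⟩

/-- the closure of the local orbit is compact at tame points -/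
theorem compact_of_tame (X : Type) [TopologicalSpace X] [TopologicalSpace.MetrizableSpace X]
    [SecondCountableTopology X] [MeasurableSpace X] [BorelSpace X]
    [MulAction (Equiv.Perm ℕ) X]
    (hact : Continuous (fun p : Equiv.Perm ℕ × X => p.1 • p.2))
    (hP : ¬ ∃ f : (ℕ → Bool) → X, Measurable f ∧ ∀ s t, s ≠ t →
      ∀ g : Equiv.Perm ℕ, g • f s ≠ f t) (x : X) (hx : Tame x) :
    ∃ n : ℕ, IsCompact (closure (LO n x)) := by
  obtain ⟨k, m, htop, hcompl, hunif⟩ := hx
  refine ⟨k, ?_⟩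
  refine @compact_of_tame_aux X _ _ _ _ _ _ hact hP x k (closure (LO k x)) m hcompl
    Subtype.val ?_ Subtype.range_val hunif
  rw [htop]
  exact IsEmbedding.subtypeVal

/-- **The local dichotomy.** There are perfectly many orbits, or only countably many orbits contain
tame points. -/
theorem local_dichotomy (X : Type) [TopologicalSpace X] [TopologicalSpace.MetrizableSpace X]
    [SecondCountableTopology X] [MeasurableSpace X] [BorelSpace X] [StandardBorelSpace X]
    [MulAction (Equiv.Perm ℕ) X]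
    (hact : Continuous (fun p : Equiv.Perm ℕ × X => p.1 • p.2)) :
    (∃ f : (ℕ → Bool) → X, Measurable f ∧ ∀ s t, s ≠ t → ∀ g : Equiv.Perm ℕ, g • f s ≠ f t) ∨
      ∃ D : Set X, D.Countable ∧ ∀ x : X, Tame x → ∃ g : Equiv.Perm ℕ, g • x ∈ D := by
  by_cases hP : ∃ f : (ℕ → Bool) → X, Measurable f ∧ ∀ s t, s ≠ t →
      ∀ g : Equiv.Perm ℕ, g • f s ≠ f t
  · exact Or.inl hP
  · obtain ⟨D, hD, h⟩ := loc_local X hact hP
    exact Or.inr ⟨D, hD, fun x hx => h x (compact_of_tame X hact hP x hx)⟩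

end Pool.Agent.H16.CX
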