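import Pool.Agent.H16.CX.Defs

/-!
# Continuous actions of the symmetric group with relatively compact local orbits: targets
-/

set_option autoImplicit false

open Set Topology Filter MeasureTheory

namespace Pool.Agent.H16.CX

attribute [local instance] Pool.Agent.H71.permTop

/-- (UNI) the restriction monoid of a continuous action on a compact space -/
def T_UNI : Prop :=
  ∀ (X : Type) [MetricSpace X] [CompactSpace X] [MulAction (Equiv.Perm ℕ) X],
    Continuous (fun p : Equiv.Perm ℕ × X => p.1 • p.2) →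
    ∃ R : RS X, ∀ (g : Equiv.Perm ℕ) (x : X), R.res (pe g) x = g⁻¹ • x

/-- (SHF) the shifted action -/
def T_SHF : Prop :=
  ∀ (X : Type) [MetricSpace X] (R : RS X) (k : ℕ), ∃ R' : RS X,
    ∀ b b' : ℕ ↪ ℕ, (∀ i < k, b' i = i) → (∀ i, b' (k + i) = k + b i) →
      ∀ x, R'.res b x = R.res b' x

/-- (CCT) a relation with countable classes has perfectly many classes -/
def T_CCT : Prop :=
  ∀ (X : Type) [MetricSpace X] [CompactSpace X] [MeasurableSpace X] [BorelSpace X] (R : RS X)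
    (f : (ℕ → Bool) → X), Measurable f → (∀ s, {t | Eqv R (f s) (f t)}.Countable) → PM R

/-- (IND) order indiscernible points -/
def T_IND : Prop :=
  ∀ (X : Type) [MetricSpace X] [CompactSpace X] (R : RS X) (Z : Set X), IsClosed Z →
    Z.Nonempty → InvK R 0 Z → ∃ w ∈ Z, ∀ i : ℕ ↪ ℕ, StrictMono i → R.res i w = w

/-- (ZED) the extension to all linear orders -/
def T_ZED : Prop :=
  ∀ (X : Type) [MetricSpace X] [CompactSpace X] (R : RS X) (Z : Set X) (w : X), IsClosed Z →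
    InvK R 0 Z → w ∈ Z → (∀ i : ℕ ↪ ℕ, StrictMono i → R.res i w = w) →
    ∃ z : (ℕ → ℕ → Prop) → X, ZZ R w z ∧ ∀ L, Ord L → z L ∈ Z

/-- (SWP) adjacent transpositions suffice -/
def T_SWP : Prop :=
  ∀ (X : Type) [MetricSpace X] (R : RS X) (w : X),
    (∀ p : ℕ, R.res (pe (Equiv.swap p (p + 1))) w = w) → ∀ g : Equiv.Perm ℕ, R.res (pe g) w = w

/-- (TWI) the twins of `z L` are the adjacent elements of `L` -/
def T_TWI : Prop :=
  ∀ (X : Type) [MetricSpace X] (R : RS X) (w : X) (z : (ℕ → ℕ → Prop) → X), ZZ R w z →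
    ∀ p : ℕ, R.res (pe (Equiv.swap p (p + 1))) w ≠ w → ∀ L, Ord L →
      (∀ a, {b | L a b}.Infinite ∧ {b | L b a}.Infinite) →
      ∀ a b, a ≠ b → (Tw R (z L) a b ↔ Adj L a b)

/-- (TWG) twins are equivariant -/
def T_TWG : Prop :=
  ∀ (X : Type) [MetricSpace X] (R : RS X) (x : X) (g : Equiv.Perm ℕ) (a b : ℕ),
    Tw R (R.res (pe g) x) a b ↔ Tw R x (g a) (g b)

/-- (ORD) perfectly many linear orders with pairwise non-isomorphic adjacency graphs -/
def T_ORD : Prop :=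
  ∃ L : (ℕ → Bool) → ℕ → ℕ → Prop, (∀ s, Ord (L s)) ∧
    (∀ s a, {b | L s a b}.Infinite ∧ {b | L s b a}.Infinite) ∧
    (∀ i j, IsClopen {s | L s i j}) ∧
    ∀ s t (g : Equiv.Perm ℕ),
      (∀ a b, a ≠ b → (Adj (L s) a b ↔ Adj (L t) (g a) (g b))) → s = t

/-- (FIX) fixed points in closed invariant sets -/
def T_FIX : Prop :=
  ∀ (X : Type) [MetricSpace X] [CompactSpace X] [MeasurableSpace X] [BorelSpace X] (R : RS X)
    (Z : Set X), IsClosed Z → Z.Nonempty → InvK R 0 Z →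
    (∃ x ∈ Z, ∀ g : Equiv.Perm ℕ, R.res (pe g) x = x) ∨ PM R

/-- (FXK) fixed points of the stabilizers of finite sets -/
def T_FXK : Prop :=
  ∀ (X : Type) [MetricSpace X] [CompactSpace X] [MeasurableSpace X] [BorelSpace X] (R : RS X)
    (k : ℕ) (Z : Set X), IsClosed Z → Z.Nonempty → InvK R k Z →
    (∃ x ∈ Z, ∀ g ∈ VS k, R.res (pe g) x = x) ∨ PM R

/-- (SUR) every point is a restriction of a point in `FE` -/
def T_SUR : Prop :=
  ∀ (X : Type) [MetricSpace X] [CompactSpace X] (R : RS X),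
    (∀ (k : ℕ) (Z : Set X), IsClosed Z → Z.Nonempty → InvK R k Z →
      ∃ x ∈ Z, ∀ g ∈ VS k, R.res (pe g) x = x) →
    ∀ x : X, ∃ z ∈ FE R, ∀ b : ℕ ↪ ℕ, (∀ i, b i = 2 * i) → R.res b z = x

/-- (COD) the dichotomy for `FE` -/
def T_COD : Prop :=
  ∀ (X : Type) [MetricSpace X] [CompactSpace X] [MeasurableSpace X] [BorelSpace X] (R : RS X),
    Pool.Agent.H72.UV.SigmaStmt →
    (∃ D : Set X, D.Countable ∧ ∀ z ∈ FE R, ∃ d ∈ D, EvEq R z d) ∨
      ∃ f : (ℕ → Bool) → X, Measurable f ∧ (∀ s, f s ∈ FE R) ∧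
        ∀ s t, s ≠ t → ¬ EvEq R (f s) (f t)

/-- (CLS) every orbit meets `FE` in countably many classes -/
def T_CLS : Prop :=
  ∀ (X : Type) [MetricSpace X] (R : RS X) (y : X) (T : Set X), T ⊆ FE R →
    (∀ x ∈ T, Eqv R y x) → (∀ x ∈ T, ∀ x' ∈ T, EvEq R x x' → x = x') → T.Countable

/-- (CPT) the dichotomy for compact spaces -/
def T_CPT : Prop :=
  ∀ (X : Type) [MetricSpace X] [CompactSpace X] [MeasurableSpace X] [BorelSpace X] (R : RS X),
    (∃ D : Set X, D.Countable ∧ ∀ x : X, ∃ d ∈ D, Eqv R x d) ∨ PM R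

/-- (CCA) the countable index lemma for continuous actions -/
def T_CCA : Prop :=
  ∀ (X : Type) [TopologicalSpace X] [TopologicalSpace.MetrizableSpace X] [SecondCountableTopology X]
    [MeasurableSpace X] [BorelSpace X] [MulAction (Equiv.Perm ℕ) X],
    Continuous (fun p : Equiv.Perm ℕ × X => p.1 • p.2) → ∀ (n : ℕ) (f : (ℕ → Bool) → X),
      Measurable f → (∀ s t, s ≠ t → ∀ g ∈ VS n, g • f s ≠ f t) →
      ∃ f' : (ℕ → Bool) → X, Measurable f' ∧
        ∀ s t, s ≠ t → ∀ g : Equiv.Perm ℕ, g • f' s ≠ f' t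

/-- (CPA) the dichotomy for compact sets invariant under an open subgroup -/
def T_CPA : Prop :=
  ∀ (X : Type) [TopologicalSpace X] [TopologicalSpace.MetrizableSpace X] [MeasurableSpace X] [BorelSpace X]
    [MulAction (Equiv.Perm ℕ) X],
    Continuous (fun p : Equiv.Perm ℕ × X => p.1 • p.2) → ∀ (n : ℕ) (K : Set X), IsCompact K →
      (∀ g ∈ VS n, ∀ x ∈ K, g • x ∈ K) →
      (∃ D : Set X, D.Countable ∧ ∀ x ∈ K, ∃ g ∈ VS n, g • x ∈ D) ∨
        ∃ f : (ℕ → Bool) → X, Measurable f ∧ ∀ s t, s ≠ t → ∀ g ∈ VS n, g • f s ≠ f t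

/-- (BAI) local orbits in sigma-compact spaces are relatively compact -/
def T_BAI : Prop :=
  ∀ (X : Type) [TopologicalSpace X] [TopologicalSpace.MetrizableSpace X] [SigmaCompactSpace X]
    [MulAction (Equiv.Perm ℕ) X], Continuous (fun p : Equiv.Perm ℕ × X => p.1 • p.2) →
    ∀ x : X, ∃ n : ℕ, IsCompact (closure {y | ∃ g ∈ VS n, g • x = y})

/-- (LOC) the dichotomy for actions with relatively compact local orbits -/
def T_LOC : Prop :=
  ∀ (X : Type) [TopologicalSpace X] [TopologicalSpace.MetrizableSpace X] [SecondCountableTopology X]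
    [MeasurableSpace X] [BorelSpace X] [StandardBorelSpace X] [MulAction (Equiv.Perm ℕ) X],
    Continuous (fun p : Equiv.Perm ℕ × X => p.1 • p.2) →
    (∀ x : X, ∃ n : ℕ, IsCompact (closure {y | ∃ g ∈ VS n, g • x = y})) →
    (∃ D : Set X, D.Countable ∧ ∀ x : X, ∃ g : Equiv.Perm ℕ, g • x ∈ D) ∨
      ∃ f : (ℕ → Bool) → X, Measurable f ∧ ∀ s t, s ≠ t → ∀ g : Equiv.Perm ℕ, g • f s ≠ f t

end Pool.Agent.H16.CX
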